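import Mathlib
import Pool.Agent.W650.FlAll

/-!
# Fliess's conjecture on commutative closures is false for every alphabet with at least four letters

Let `a, b, c, d` be the first four letters of an alphabet with `k ≥ 4` letters `a_1, ..., a_k` and
let `L` be the regular language

  `L = {a, ac, ad, bc}^* ∪ {a, c, bc, bdd, bcd}^* ∪ {a, d, bd, bcc, bcd}^*`.

For every permutation `σ` the section `comm(L) ∩ a_(σ 1)^* ... a_(σ k)^*` of the commutative closure
`comm(L)` is context-free, but `comm(L)` is not context-free. The sections are bounded context-free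
languages with the same commutative closure `comm(L)`.

The non-context-freeness and the context-freeness of the sections are theorems of the starting
library (`Pool.Agent.W650.Fl*`).
-/

set_option autoImplicit false

namespace Pool.Agent.Results.MP_434a84_lc.FliessConjectureFails

open Pool.Agent.W650.Fl

/-- The commutative closure of a language: all rearrangements of its words. -/
def comm {α : Type} (L : Language α) : Language α := {w | ∃ v ∈ L, v.Perm w}

/-- The language `a_(σ 1)^* a_(σ 2)^* ... a_(σ k)^*`. -/
def blocks {k : ℕ} (σ : Equiv.Perm (Fin k)) : Language (Fin k) :=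
  {w | ∃ e : Fin k → ℕ, w = (List.finRange k).flatMap (fun i => List.replicate (e i) (σ i))}

/-- The finite sets of words. -/
def P1 {α : Type} (a b c d : α) : Language α := {w | w ∈ [[a], [a, c], [a, d], [b, c]]}
/-- The finite sets of words. -/
def P2 {α : Type} (a b c d : α) : Language α :=
  {w | w ∈ [[a], [c], [b, c], [b, d, d], [b, c, d]]}
/-- The finite sets of words. -/
def P3 {α : Type} (a b c d : α) : Language α :=
  {w | w ∈ [[a], [d], [b, d], [b, c, c], [b, c, d]]}

open Computability in
/-- The language `{a, ac, ad, bc}^* ∪ {a, c, bc, bdd, bcd}^* ∪ {a, d, bd, bcc, bcd}^*`. -/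
def R {α : Type} (a b c d : α) : Language α :=
  (P1 a b c d)∗ + (P2 a b c d)∗ + (P3 a b c d)∗

open RegularExpression in
/-- A regular expression for `R`. -/
def E {α : Type} (a b c d : α) : RegularExpression α :=
  star (char a + char a * char c + char a * char d + char b * char c) +
  star (char a + char c + char b * char c + char b * (char d * char d) +
    char b * (char c * char d)) +
  star (char a + char d + char b * char d + char b * (char c * char c) +
    char b * (char c * char d))

/-- a single word -/
def sg {α : Type} (u : List α) : Language α := {w | w = u}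

theorem mem_sg {α : Type} (u w : List α) : w ∈ sg u ↔ w = u := Iff.rfl

theorem mul_sg {α : Type} (u v : List α) : sg u * sg v = sg (u ++ v) := by
  ext w
  rw [Language.mem_mul]
  constructor
  · rintro ⟨x, hx, y, hy, rfl⟩
    rw [mem_sg] at hx hy ⊢
    rw [hx, hy]
  · intro h
    rw [mem_sg] at h
    exact ⟨u, rfl, v, rfl, h.symm⟩

theorem E_matches {α : Type} (a b c d : α) : (E a b c d).matches' = R a b c d := by
  unfold E R
  have e1 : ∀ x : α, (RegularExpression.char x).matches' = sg [x] := fun _ => rfl
  simp only [RegularExpression.matches'_add, RegularExpression.matches'_mul,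
    RegularExpression.matches'_star, e1, mul_sg, List.cons_append, List.nil_append]
  congr 1
  · congr 1
    · congr 1
      ext w
      simp only [Language.mem_add, mem_sg]
      change _ ↔ w ∈ [_, _, _, _]
      simp [or_assoc]
    · congr 1
      ext w
      simp only [Language.mem_add, mem_sg]
      change _ ↔ w ∈ [_, _, _, _, _]
      simp [or_assoc]
  · congr 1
    ext w
    simp only [Language.mem_add, mem_sg]
    change _ ↔ w ∈ [_, _, _, _, _]
    simp [or_assoc]

open Computability

variable {k : ℕ} (hk : 4 ≤ k)

theorem em_lt (x : Fin 4) : (em hk x).val < 4 := by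
  unfold Pool.Agent.W650.Fl.em
  simp

/-- the sum of a list of words -/
theorem flat_cone {α : Type} [DecidableEq α] (P : Language α) (S : List α → Prop)
    (h0 : S []) (hadd : ∀ u v, S u → S v → S (u ++ v)) (hP : ∀ y ∈ P, S y) (w : List α)
    (hw : w ∈ P∗) : S w := by
  rw [Language.mem_kstar] at hw
  obtain ⟨L, rfl, hL⟩ := hw
  induction L with
  | nil => exact h0
  | cons y L ih =>
    rw [List.flatten_cons]
    exact hadd _ _ (hP y (hL y List.mem_cons_self)) (ih fun z hz => hL z (List.mem_cons_of_mem _ hz))

theorem R_sub (w : List (Fin k))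
    (hw : w ∈ R (em hk 0) (em hk 1) (em hk 2) (em hk 3)) : w ∈ LK hk := by
  have n01 : em hk 0 ≠ em hk 1 := fun h => by simpa using em_inj hk h
  have n02 : em hk 0 ≠ em hk 2 := fun h => by simpa using em_inj hk h
  have n03 : em hk 0 ≠ em hk 3 := fun h => by simpa using em_inj hk h
  have n12 : em hk 1 ≠ em hk 2 := fun h => by simpa using em_inj hk h
  have n13 : em hk 1 ≠ em hk 3 := fun h => by simpa using em_inj hk h
  have n23 : em hk 2 ≠ em hk 3 := fun h => by simpa using em_inj hk h
  have l0 := em_lt hk 0
  have l1 := em_lt hk 1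
  have l2 := em_lt hk 2
  have l3 := em_lt hk 3
  rw [mem_LK]
  unfold R at hw
  rw [Language.mem_add, Language.mem_add] at hw
  rcases hw with (hw | hw) | hw
  · have h := flat_cone _ (fun w => (∀ x ∈ w, x.val < 4) ∧
      (w.count (em hk 1) ≤ w.count (em hk 2) ∧ w.count (em hk 2) + w.count (em hk 3) ≤
        w.count (em hk 0) + w.count (em hk 1))) (by simp) (by
        rintro u v ⟨h1, h2, h3⟩ ⟨h4, h5, h6⟩
        refine ⟨?_, ?_, ?_⟩
        · intro x hx
          rcases List.mem_append.1 hx with hx | hx
          · exact h1 x hx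
          · exact h4 x hx
        · simp only [List.count_append]; omega
        · simp only [List.count_append]; omega) (by
        intro y hy
        have hy' : y ∈ [[em hk 0], [em hk 0, em hk 2], [em hk 0, em hk 3], [em hk 1, em hk 2]] := hy
        simp only [List.mem_cons, List.not_mem_nil, or_false] at hy'
        rcases hy' with rfl | rfl | rfl | rfl <;>
        simp [List.count_cons, n01, n02, n03, n12, n13, n23, n01.symm, n02.symm, n03.symm,
          n12.symm, n13.symm, n23.symm, l0, l1, l2, l3]) w hw
    exact ⟨h.1, Or.inl h.2⟩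
  · have h := flat_cone _ (fun w => (∀ x ∈ w, x.val < 4) ∧
      (w.count (em hk 3) ≤ 2 * w.count (em hk 1) ∧ 2 * w.count (em hk 1) ≤
        2 * w.count (em hk 2) + w.count (em hk 3))) (by simp) (by
        rintro u v ⟨h1, h2, h3⟩ ⟨h4, h5, h6⟩
        refine ⟨?_, ?_, ?_⟩
        · intro x hx
          rcases List.mem_append.1 hx with hx | hx
          · exact h1 x hx
          · exact h4 x hx
        · simp only [List.count_append]; omega
        · simp only [List.count_append]; omega) (by
        intro y hy
        have hy' : y ∈ [[em hk 0], [em hk 2], [em hk 1, em hk 2], [em hk 1, em hk 3, em hk 3],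
          [em hk 1, em hk 2, em hk 3]] := hy
        simp only [List.mem_cons, List.not_mem_nil, or_false] at hy'
        rcases hy' with rfl | rfl | rfl | rfl | rfl <;>
        simp [List.count_cons, n01, n02, n03, n12, n13, n23, n01.symm, n02.symm, n03.symm,
          n12.symm, n13.symm, n23.symm, l0, l1, l2, l3]) w hw
    exact ⟨h.1, Or.inr (Or.inl h.2)⟩
  · have h := flat_cone _ (fun w => (∀ x ∈ w, x.val < 4) ∧
      (w.count (em hk 2) ≤ 2 * w.count (em hk 1) ∧ 2 * w.count (em hk 1) ≤
        2 * w.count (em hk 3) + w.count (em hk 2))) (by simp) (by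
        rintro u v ⟨h1, h2, h3⟩ ⟨h4, h5, h6⟩
        refine ⟨?_, ?_, ?_⟩
        · intro x hx
          rcases List.mem_append.1 hx with hx | hx
          · exact h1 x hx
          · exact h4 x hx
        · simp only [List.count_append]; omega
        · simp only [List.count_append]; omega) (by
        intro y hy
        have hy' : y ∈ [[em hk 0], [em hk 3], [em hk 1, em hk 3], [em hk 1, em hk 2, em hk 2],
          [em hk 1, em hk 2, em hk 3]] := hy
        simp only [List.mem_cons, List.not_mem_nil, or_false] at hy'
        rcases hy' with rfl | rfl | rfl | rfl | rfl <;>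
        simp [List.count_cons, n01, n02, n03, n12, n13, n23, n01.symm, n02.symm, n03.symm,
          n12.symm, n13.symm, n23.symm, l0, l1, l2, l3]) w hw
    exact ⟨h.1, Or.inr (Or.inr h.2)⟩

theorem count_rep {α : Type} [DecidableEq α] (n : ℕ) (u : List α) (x : α) :
    ((List.replicate n u).flatten).count x = n * u.count x := by
  induction n with
  | zero => simp
  | succ n ih => rw [List.replicate_succ, List.flatten_cons, List.count_append, ih]; ring

/-- a word with given counts is in the star -/
theorem star_of {α : Type} (P : Language α) (l : List (ℕ × List α)) (h : ∀ p ∈ l, p.2 ∈ P) :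
    (l.flatMap fun p => (List.replicate p.1 p.2).flatten) ∈ P∗ := by
  rw [Language.mem_kstar]
  refine ⟨l.flatMap fun p => List.replicate p.1 p.2, ?_, ?_⟩
  · induction l with
    | nil => rfl
    | cons p l ih =>
      rw [List.flatMap_cons, List.flatMap_cons, List.flatten_append,
        ih fun q hq => h q (List.mem_cons_of_mem _ hq)]
  · intro y hy
    obtain ⟨p, hp, hy⟩ := List.mem_flatMap.1 hy
    rw [List.eq_of_mem_replicate hy]
    exact h p hp

theorem perm_of (v w : List (Fin k)) (hw : ∀ x ∈ w, x.val < 4) (hv : ∀ x ∈ v, x.val < 4)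
    (h : ∀ x : Fin 4, v.count (em hk x) = w.count (em hk x)) : v.Perm w := by
  rw [List.perm_iff_count]
  intro x
  by_cases hx : x.val < 4
  · have := h ⟨x.val, hx⟩
    exact this
  · rw [List.count_eq_zero_of_not_mem (fun hm => hx (hv x hm)),
      List.count_eq_zero_of_not_mem (fun hm => hx (hw x hm))]

theorem sub_R (w : List (Fin k)) (hw : w ∈ LK hk) :
    w ∈ comm (R (em hk 0) (em hk 1) (em hk 2) (em hk 3)) := by
  have n01 : em hk 0 ≠ em hk 1 := fun h => by simpa using em_inj hk h
  have n02 : em hk 0 ≠ em hk 2 := fun h => by simpa using em_inj hk h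
  have n03 : em hk 0 ≠ em hk 3 := fun h => by simpa using em_inj hk h
  have n12 : em hk 1 ≠ em hk 2 := fun h => by simpa using em_inj hk h
  have n13 : em hk 1 ≠ em hk 3 := fun h => by simpa using em_inj hk h
  have n23 : em hk 2 ≠ em hk 3 := fun h => by simpa using em_inj hk h
  -- words in R have small letters
  have small : ∀ v ∈ R (em hk 0) (em hk 1) (em hk 2) (em hk 3), ∀ x ∈ v, x.val < 4 :=
    fun v hv => (R_sub hk v hv).1
  rw [mem_LK] at hw
  obtain ⟨hs, hM⟩ := hw
  -- the construction
  have fin : ∀ v ∈ R (em hk 0) (em hk 1) (em hk 2) (em hk 3),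
      (∀ x : Fin 4, v.count (em hk x) = w.count (em hk x)) →
      w ∈ comm (R (em hk 0) (em hk 1) (em hk 2) (em hk 3)) :=
    fun v hv hc => ⟨v, hv, perm_of hk v w hs (small v hv) hc⟩
  have inR1 : ∀ v ∈ (P1 (em hk 0) (em hk 1) (em hk 2) (em hk 3))∗,
      v ∈ R (em hk 0) (em hk 1) (em hk 2) (em hk 3) := fun v hv => by
    unfold R
    rw [Language.mem_add, Language.mem_add]
    exact Or.inl (Or.inl hv)
  have inR2 : ∀ v ∈ (P2 (em hk 0) (em hk 1) (em hk 2) (em hk 3))∗,
      v ∈ R (em hk 0) (em hk 1) (em hk 2) (em hk 3) := fun v hv => by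
    unfold R
    rw [Language.mem_add, Language.mem_add]
    exact Or.inl (Or.inr hv)
  have inR3 : ∀ v ∈ (P3 (em hk 0) (em hk 1) (em hk 2) (em hk 3))∗,
      v ∈ R (em hk 0) (em hk 1) (em hk 2) (em hk 3) := fun v hv => by
    unfold R
    rw [Language.mem_add, Language.mem_add]
    exact Or.inr hv
  generalize hx1 : w.count (em hk 0) = x1 at *
  generalize hx2 : w.count (em hk 1) = x2 at *
  generalize hx3 : w.count (em hk 2) = x3 at *
  generalize hx4 : w.count (em hk 3) = x4 at *
  rcases hM with hM | hM | hM
  · refine fin _ (inR1 _ (star_of _ [(x2, [em hk 1, em hk 2]), (x3 - x2, [em hk 0, em hk 2]),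
      (x4, [em hk 0, em hk 3]), (x1 - (x3 - x2) - x4, [em hk 0])] ?_)) ?_
    · intro p hp
      simp only [List.mem_cons, List.not_mem_nil, or_false] at hp
      change p.2 ∈ [_, _, _, _]
      rcases hp with rfl | rfl | rfl | rfl <;> simp
    · intro x
      simp only [List.flatMap_cons, List.flatMap_nil, List.count_append, count_rep,
        List.append_nil]
      fin_cases x <;> simp [List.count_cons, n01, n02, n03, n12, n13, n23, n01.symm, n02.symm,
        n03.symm, n12.symm, n13.symm, n23.symm, hx1, hx2, hx3, hx4] <;> omega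
  · rcases Nat.even_or_odd' x4 with ⟨j, rfl | rfl⟩
    · refine fin _ (inR2 _ (star_of _ [(j, [em hk 1, em hk 3, em hk 3]),
        (x2 - j, [em hk 1, em hk 2]), (x3 - (x2 - j), [em hk 2]), (x1, [em hk 0])] ?_)) ?_
      · intro p hp
        simp only [List.mem_cons, List.not_mem_nil, or_false] at hp
        change p.2 ∈ [_, _, _, _, _]
        rcases hp with rfl | rfl | rfl | rfl <;> simp
      · intro x
        simp only [List.flatMap_cons, List.flatMap_nil, List.count_append, count_rep,
          List.append_nil]
        fin_cases x <;> simp [List.count_cons, n01, n02, n03, n12, n13, n23, n01.symm, n02.symm,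
          n03.symm, n12.symm, n13.symm, n23.symm, hx1, hx2, hx3, hx4] <;> omega
    · refine fin _ (inR2 _ (star_of _ [(j, [em hk 1, em hk 3, em hk 3]),
        (1, [em hk 1, em hk 2, em hk 3]), (x2 - j - 1, [em hk 1, em hk 2]),
        (x3 - (x2 - j), [em hk 2]), (x1, [em hk 0])] ?_)) ?_
      · intro p hp
        simp only [List.mem_cons, List.not_mem_nil, or_false] at hp
        change p.2 ∈ [_, _, _, _, _]
        rcases hp with rfl | rfl | rfl | rfl | rfl <;> simp
      · intro x
        simp only [List.flatMap_cons, List.flatMap_nil, List.count_append, count_rep,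
          List.append_nil]
        fin_cases x <;> simp [List.count_cons, n01, n02, n03, n12, n13, n23, n01.symm, n02.symm,
          n03.symm, n12.symm, n13.symm, n23.symm, hx1, hx2, hx3, hx4] <;> omega
  · rcases Nat.even_or_odd' x3 with ⟨j, rfl | rfl⟩
    · refine fin _ (inR3 _ (star_of _ [(j, [em hk 1, em hk 2, em hk 2]),
        (x2 - j, [em hk 1, em hk 3]), (x4 - (x2 - j), [em hk 3]), (x1, [em hk 0])] ?_)) ?_
      · intro p hp
        simp only [List.mem_cons, List.not_mem_nil, or_false] at hp
        change p.2 ∈ [_, _, _, _, _]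
        rcases hp with rfl | rfl | rfl | rfl <;> simp
      · intro x
        simp only [List.flatMap_cons, List.flatMap_nil, List.count_append, count_rep,
          List.append_nil]
        fin_cases x <;> simp [List.count_cons, n01, n02, n03, n12, n13, n23, n01.symm, n02.symm,
          n03.symm, n12.symm, n13.symm, n23.symm, hx1, hx2, hx3, hx4] <;> omega
    · refine fin _ (inR3 _ (star_of _ [(j, [em hk 1, em hk 2, em hk 2]),
        (1, [em hk 1, em hk 2, em hk 3]), (x2 - j - 1, [em hk 1, em hk 3]),
        (x4 - (x2 - j), [em hk 3]), (x1, [em hk 0])] ?_)) ?_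
      · intro p hp
        simp only [List.mem_cons, List.not_mem_nil, or_false] at hp
        change p.2 ∈ [_, _, _, _, _]
        rcases hp with rfl | rfl | rfl | rfl | rfl <;> simp
      · intro x
        simp only [List.flatMap_cons, List.flatMap_nil, List.count_append, count_rep,
          List.append_nil]
        fin_cases x <;> simp [List.count_cons, n01, n02, n03, n12, n13, n23, n01.symm, n02.symm,
          n03.symm, n12.symm, n13.symm, n23.symm, hx1, hx2, hx3, hx4] <;> omega

theorem comm_R : comm (R (em hk 0) (em hk 1) (em hk 2) (em hk 3)) = LK hk := by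
  ext w
  constructor
  · rintro ⟨v, hv, hp⟩
    exact LK_perm hk v w hp (R_sub hk v hv)
  · exact fun hw => sub_R hk w hw

theorem sect (σ : Equiv.Perm (Fin k)) : (LK hk ⊓ blocks σ : Language (Fin k)) =
    ({w | w ∈ LK hk ∧ w.Pairwise (fun x y => σ.symm x ≤ σ.symm y)} : Language (Fin k)) := by
  ext w
  change (w ∈ LK hk ∧ ∃ e : Fin k → ℕ, _) ↔ (w ∈ LK hk ∧ _)
  rw [sorted_iff]

/-- every word can be sorted -/
theorem exists_sorted (σ : Equiv.Perm (Fin k)) (w : List (Fin k)) :
    ∃ v ∈ blocks σ, v.Perm w := by
  refine ⟨w.mergeSort (fun x y => decide (σ.symm x ≤ σ.symm y)), ?_, List.mergeSort_perm _ _⟩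
  change ∃ e : Fin k → ℕ, _
  rw [sorted_iff]
  have h := List.pairwise_mergeSort (le := fun x y => decide (σ.symm x ≤ σ.symm y))
    (by
      intro a b c h1 h2
      simp only [decide_eq_true_eq] at *
      exact h1.trans h2)
    (by
      intro a b
      simp only [Bool.or_eq_true, decide_eq_true_eq]
      exact le_total _ _) w
  exact h.imp (by
    intro a b hab
    simpa using hab)

theorem comm_sect (σ : Equiv.Perm (Fin k)) : comm (LK hk ⊓ blocks σ) = LK hk := by
  ext w
  constructor
  · rintro ⟨v, hv, hp⟩
    exact LK_perm hk v w hp hv.1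
  · intro hw
    obtain ⟨v, hv, hp⟩ := exists_sorted σ w
    exact ⟨v, ⟨LK_perm hk w v hp.symm hw, hv⟩, hp⟩

/-- The four letters are the first four letters of the alphabet with `k` letters. -/
theorem result (k : ℕ) (hk : 4 ≤ k) (a b c d : Fin k) (ha : (a : ℕ) = 0) (hb : (b : ℕ) = 1)
    (hc : (c : ℕ) = 2) (hd : (d : ℕ) = 3) :
    (∃ e : RegularExpression (Fin k), e.matches' = R a b c d) ∧
    ¬ (comm (R a b c d)).IsContextFree ∧
    ∀ σ : Equiv.Perm (Fin k), (comm (R a b c d) ⊓ blocks σ).IsContextFree ∧
      comm (comm (R a b c d) ⊓ blocks σ) = comm (R a b c d) := by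
  obtain rfl : a = Pool.Agent.W650.Fl.em hk 0 := Fin.ext ha
  obtain rfl : b = Pool.Agent.W650.Fl.em hk 1 := Fin.ext hb
  obtain rfl : c = Pool.Agent.W650.Fl.em hk 2 := Fin.ext hc
  obtain rfl : d = Pool.Agent.W650.Fl.em hk 3 := Fin.ext hd
  refine ⟨⟨E _ _ _ _, E_matches _ _ _ _⟩, ?_, fun σ => ?_⟩
  · rw [comm_R hk]
    exact LK_not_cf hk
  · rw [comm_R hk]
    refine ⟨?_, comm_sect hk σ⟩
    rw [sect hk σ]
    exact sections_LK hk σ.symm σ.symm.injective

end Pool.Agent.Results.MP_434a84_lc.FliessConjectureFails
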